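import Pool.Agent.X302.MW.Cal3

/-!
# MP_855f4c_ag: mw purity for threefolds with completely degenerate holomorphic forms
-/

set_option autoImplicit false

open Module

universe u v

namespace Pool.Agent.Results.MP_855f4c_ag.CalabiYauThreefolds

open Pool.Agent.Y143 Pool.Agent.X302.MW

/-- **The monodromy-weight conjecture for threefolds with `h^{0,3} = h ≥ 1` whose forms of degree
two and three degenerate completely.** Let `X_K` be a smooth projective threefold over a finite
extension `K` of `ℚ_p`, with `h = dim H^3(X_K, O) ≥ 1`, which has a projective strictly semistable
model over the ring of integers, with residue field with `q` elements. Suppose that the irreducible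
components of the special fibre satisfy the Tate conjecture for divisors, that the Frobenius
eigenvalues on the graded piece of weight two of `H^2` are products of `q` and roots of unity, and
that the graded pieces of weight zero and one of the `p`-adic cohomology `H^3` satisfy
`dim gr_0 + (dim gr_1) / 2 ≥ h`. Then `H^k` of the geometric generic fibre is mw pure of weight `k`,
for all `k`. For a Calabi-Yau threefold (`H^2(X_K, O) = 0`, `h = 1`), the condition on `H^2` holds,
and the condition on `H^3` means that `gr_0` and `gr_1` are not both zero.

Here `X` is the `ℓ`-adic theory (cohomology of the strata of the special fibre and of the geometric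
generic fibre, and weight spectral sequence of Rapoport and Zink) and `X'` is the `p`-adic theory
(crystalline cohomology of the strata, Hyodo-Kato cohomology, weight spectral sequence of Mokrane),
with coefficients in algebraically closed fields `Ω` and `Ω'`, and `R` is the valuation ring of
`Ω'`; `A` and `A'` are the classes of divisors on the strata. The hypotheses are the following.

* `hC` (known, Deligne and Katz-Messing): the Frobenius eigenvalues on the
  strata are algebraic integers, and the Frobenius has the same rational characteristic polynomial
  on `H^2(Y^(1))`, and on `H^2(Y^(2))`, in the two theories.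
* `h2`: the Frobenius eigenvalues on the graded piece of weight two of the `ℓ`-adic cohomology `H^2`
  of the generic fibre are products of `q` and roots of unity; this is the case if
  `H^2(X_K, O) = 0`, because then `H^2` is spanned by classes of divisors; it allows
  `H^2(X_K, O) ≠ 0` if the forms of degree two degenerate completely.
* `hN`: on a subspace `U` of the Hyodo-Kato cohomology `H^3` stable under the Frobenius, the sum of
  the slopes is at least `dim U - h`; this holds because the Newton polygon lies above the Hodge
  polygon and all the Hodge numbers but `h^{0,3} = h` contribute slopes at least one.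
* `hW`: the condition on the graded pieces `gr_0` and `gr_1`, in the form
  `2 h ≤ dim W_0 + dim W_1`.
* `hT`: the Tate conjecture for divisors on the components.

The case `h = 0` and `H^2(X_K, O) = 0` is the hand-in `ThreefoldsWithoutForms`. -/
theorem result {Ω : Type u} [Field Ω] [CharZero Ω] [IsAlgClosed Ω] {Γ : Type}
    {Ω' : Type u} [Field Ω'] [CharZero Ω'] [IsAlgClosed Ω'] {Γ' : Type} {q : ℕ}
    (hq : IsPrimePow q)
    (X : Degeneration.{u, v} Ω Γ 3 q) (A : DivisorClasses X.toSpecialFibre)
    (X' : SemistableModel.{u, v} Ω' Γ' 3 q) (A' : DivisorClasses X'.toSpecialFibre)
    (hC : AreComparable X.toSpecialFibre X'.toSpecialFibre)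
    (R : ValuationSubring Ω') (hR : ((q : Ω'))⁻¹ ∉ R)
    (h2 : GradedTate X.toSemistableModel 2 2)
    (h : ℕ) (_hh : 1 ≤ h) (hN : NewtonBound X' 3 h R)
    (hW : IsCompletelyDegenerate X' 3 h)
    (hT : A.TateConj 0) (k : ℕ) :
    IsMWPure q k (X.actV k X.frob) (X.N k) :=
  mw_deg hq X A X' A' hC R hR h2 hN hW hT k

end Pool.Agent.Results.MP_855f4c_ag.CalabiYauThreefolds
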