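import Pool.Agent.X302.MW.Fin

/-!
# MP_855f4c_ag: mw purity of `H^k` when the Frobenius characters of the strata are controlled
-/

set_option autoImplicit false

open Module

universe u v

namespace Pool.Agent.Results.MP_855f4c_ag.ControlledCharacters

open Pool.Agent.Y143 Pool.Agent.X302.MW

/-- **The monodromy-weight conjecture for degenerations with controlled characters.** Let `X` be a
projective strictly semistable scheme of relative dimension `n` over a henselian discrete valuation
ring with residue field with `q` elements, with special fibre `Y`, and let `Γ` be a commutative
family of operators (stable under transposition) containing the geometric Frobenius. The cohomology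
of the strata `Y^(m)` and of the geometric generic fibre, with the weight spectral sequence of
Rapoport and Zink, is described by `Degeneration`, the classes of components and of divisors on the
strata by `DivisorClasses`.

Suppose that in the weights `w ≥ 2`, for all columns `i = a + 1 ≥ 1` with
`i + w ≤ min(k, 2 n - k)`, every character `χ` of `Γ` is controlled: the `L`-primitive part of
`E_1^(i, w)` of character `χ` has dimension at most one (or is contained in the image of `d_1`, or
meets it in zero only), or the part of the dual character is contained in the image of `d_1`, or
`χ` does not occur in `H^w(Y^(i))`, or `w = 2` and the classes of character `χ` in `H^2(Y^(i))` are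
combinations of divisor classes. Then `H^k` of the geometric generic fibre is mw pure of weight
`k`.

For `k ≤ 2` (and `k ≥ 2 n - 2`) there is no hypothesis; for `k = 3` the hypothesis only concerns
the primitive second cohomology of the intersections of two components. -/
theorem result {Ω : Type u} [Field Ω] [CharZero Ω] [IsAlgClosed Ω] {Γ : Type} {n q : ℕ}
    (X : Degeneration.{u, v} Ω Γ n q) (A : DivisorClasses X.toSpecialFibre) (k : ℕ)
    (hA : ∀ (a w : ℕ) (χ : Γ → Ω), 2 ≤ w → a + 1 + w ≤ k → a + 1 + w + k ≤ 2 * n →
      ControlledAt A a w χ) :
    IsMWPure q k (X.actV k X.frob) (X.N k) :=
  mw X A k hA

end Pool.Agent.Results.MP_855f4c_ag.ControlledCharacters
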