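import Pool.Agent.X311.Mw3

/-!
# The monodromy-weight conjecture: if it fails for one variety, it fails almost everywhere

Let `K` be a complete discretely valued field of characteristic zero with residue field with `q`
elements, and let `ℓ` be a prime number different from the characteristic of the residue field. For a
smooth proper variety `X` over `K` (for example the generic fibre of a projective semistable scheme
over the ring of integers) let `b(X)` be its total Betti number, and let `right(X)` be the number of
the Frobenius eigenvalues on the graded pieces of the monodromy filtration of `⨁ H^m(X)` (with
multiplicities) whose weight is the one predicted by the monodromy-weight conjecture. So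
`right(X) = b(X)` if and only if the conjecture holds for `X` in all degrees (part 1).

* **The law.** Either the conjecture holds for `X`, or for all smooth proper varieties `Y` over `K` and
  for all `n ≥ 1` at most the part `√(b(X) / (2 (n + 1)))` of the Frobenius eigenvalues on the
  cohomology of `Y × X^n` have the right weight. The bound is explicit and does not depend on `Y`; for
  `Y` with good reduction, and for all `Y`, it tends to zero for `n → ∞`.
* **Consequence.** Let `C` be a class of varieties closed under products which contains a curve, for
  example all smooth projective varieties over `K`. The conjecture holds for all varieties in `C` in all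
  degrees if (and only if) for some function `f` with `limsup f(d) √d = ∞`, for example for a constant
  `f > 0`, every variety `Z` in `C` has `right(Z) ≥ f(dim Z) b(Z)`. So it is enough to show that a
  positive part of the eigenvalues, or a part of order `(log d) / √d` in dimension `d`, has the right
  weight, for all varieties.

The data `T` are the cohomology groups of all the smooth proper varieties over `K` with a Frobenius `F`
and the monodromy operator `N`, and `T.IsLocal q` collects the known theorems: the eigenvalues of `F`
are `q`-Weil numbers of integral weights, `N F = q F N`, `H^m(X)` is self-dual up to a twist (Poincaré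
duality and the hard Lefschetz theorem), and the Künneth formula.

The proof: choose a basis of `⨁ H^m(X)` made of strings for `N` consisting of vectors of pure weight,
and let `δ(i)` be the difference between the excess of the weight of the `i`-th vector and its place in
its string. The conjecture holds if and only if `δ = 0`. The representation theory of `sl(2)` shows
that the corresponding function for a product is the sum of the functions for the factors. By duality
the sum of all the numbers `δ(i)` is zero, so that `δ` is not constant if the conjecture fails, and
then the sum of `n` independent values of `δ` takes each value with probability at most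
`√(b / (2 (n + 1)))` (`X311/Mw1.lean`). The strings and their tensor products are taken from the
starting library (`Y163/MW`), which has the qualitative law for the powers of `X`.
-/

set_option autoImplicit false

universe u v w

namespace Pool.Agent.Results.MP_855f4c_ag.ZeroOneLaw

open Filter Pool.Agent.H914 Pool.Agent.Y163.MW Pool.Agent.X311.Mw

/-- **The zero-one law for the monodromy-weight conjecture**, relative and with an explicit rate.
(`pow X n` is the power `X ^ (n + 1)`.) -/
theorem result {K : Type u} [Field K] {Ω : Type w} [Field Ω] [CharZero Ω] [IsAlgClosed Ω]
    (T : Theory.{u, v, w} K Ω) (q : ℕ) (hq : 1 < q) (hT : T.IsLocal q) :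
    (∀ X, Holds T q X ↔ rightNumber T q X = betti T X) ∧
    (∀ X Y, Holds T q X → Holds T q Y → Holds T q (X.prod Y)) ∧
    (∀ X, Holds T q X ∨ ∀ (Y : SmVar K) (n : ℕ),
      (rightNumber T q (Y.prod (pow X n)) : ℝ) ≤
        √((betti T X : ℝ) / (2 * (n + 2))) * betti T (Y.prod (pow X n))) ∧
    ∀ C : Set (SmVar K), (∀ X ∈ C, ∀ Y ∈ C, X.prod Y ∈ C) →
      (∃ E ∈ C, E.dim = 1 ∧ 0 < betti T E) →
      ((∀ X ∈ C, Holds T q X) ↔ ∃ f : ℕ → ℝ,
        (∀ B : ℝ, ∃ᶠ d : ℕ in atTop, B < f d * √(d : ℝ)) ∧ RightPart T q C f) := by
  refine ⟨holds_iff hT hq, holds_prod hT hq, fun X => ?_, fun C hC ⟨E, hE, hE1, hE0⟩ =>
    class_iff hT hq C hC E hE hE1 hE0⟩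
  by_cases h : Holds T q X
  · exact Or.inl h
  · exact Or.inr fun Y n => right_le hT hq X h Y n

end Pool.Agent.Results.MP_855f4c_ag.ZeroOneLaw
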